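import Mathlib

/-!
The formula of Cauchy and Binet.
-/

set_option autoImplicit false

namespace Pool.Agent.Helper72.SUB

open Finset Matrix Equiv

variable {R : Type} [CommRing R] {p n : ℕ}

/-- the determinant of a product as a sum over all maps -/
theorem det_mul_maps (A : Matrix (Fin p) (Fin n) R) (B : Matrix (Fin n) (Fin p) R) :
    (A * B).det = ∑ f : Fin p → Fin n, (∏ i, B (f i) i) * (A.submatrix id f).det := by
  simp only [det_apply, Matrix.mul_apply]
  have h1 : ∀ σ : Perm (Fin p), ∏ i, ∑ k, A (σ i) k * B k i =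
      ∑ f : Fin p → Fin n, ∏ i, A (σ i) (f i) * B (f i) i := fun σ =>
    Finset.prod_univ_sum (t := fun _ => univ) (f := fun i k => A (σ i) k * B k i) |>.trans
      (by simp [Fintype.piFinset_univ])
  simp only [h1, Finset.smul_sum]
  rw [Finset.sum_comm]
  refine Finset.sum_congr rfl fun f _ => ?_
  rw [Finset.mul_sum]
  refine Finset.sum_congr rfl fun σ _ => ?_
  simp only [submatrix_apply, id_eq, Finset.prod_mul_distrib]
  rw [mul_smul_comm, mul_comm (∏ i, B (f i) i)]

theorem det_not_inj (A : Matrix (Fin p) (Fin n) R) (f : Fin p → Fin n)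
    (hf : ¬ Function.Injective f) : (A.submatrix id f).det = 0 := by
  unfold Function.Injective at hf
  push Not at hf
  obtain ⟨i, j, hij, hne⟩ := hf
  exact det_zero_of_column_eq hne fun k => by simp [hij]

/-- the pairs of an increasing map and a permutation give the injective maps -/
theorem inj_split (f : Fin p → Fin n) (hf : Function.Injective f) :
    ∃ (s : Fin p ↪o Fin n) (τ : Perm (Fin p)), f = s ∘ τ := by
  have hc : (univ.image f).card = p := by
    rw [card_image_of_injective _ hf, card_univ, Fintype.card_fin]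
  let s : Fin p ↪o Fin n := (univ.image f).orderEmbOfFin hc
  have hr : ∀ i, ∃ j, s j = f i := by
    intro i
    have h1 : f i ∈ Set.range s := by
      rw [Finset.range_orderEmbOfFin]
      simp
    exact h1
  choose g hg using hr
  have hgi : Function.Injective g := fun a b hab => hf (by rw [← hg a, ← hg b, hab])
  refine ⟨s, Equiv.ofBijective g (Finite.injective_iff_bijective.1 hgi), ?_⟩
  funext i
  simp [hg]

theorem split_unique {s s' : Fin p ↪o Fin n} {τ τ' : Perm (Fin p)}
    (h : (s : Fin p → Fin n) ∘ τ = s' ∘ τ') : s = s' ∧ τ = τ' := by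
  have h1 : Set.range s = Set.range s' := by
    have a1 : Set.range ((s : Fin p → Fin n) ∘ τ) = Set.range s := by
      rw [Set.range_comp, τ.surjective.range_eq, Set.image_univ]
    have a2 : Set.range ((s' : Fin p → Fin n) ∘ τ') = Set.range s' := by
      rw [Set.range_comp, τ'.surjective.range_eq, Set.image_univ]
    rw [← a1, ← a2, h]
  have h2 : s = s' := by
    have := (OrderEmbedding.range_inj (f := s) (g := s')).1 h1
    exact this
  subst h2
  refine ⟨rfl, ?_⟩
  ext i
  have h3 := congrFun h i
  simp only [Function.comp_apply] at h3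
  exact congrArg _ (s.injective h3)

/-- **Cauchy and Binet.** -/
theorem cauchy_binet (A : Matrix (Fin p) (Fin n) R) (B : Matrix (Fin n) (Fin p) R) :
    (A * B).det =
      ∑ s : Fin p ↪o Fin n, (A.submatrix id s).det * (B.submatrix s id).det := by
  classical
  rw [det_mul_maps]
  have h1 : ∑ f : Fin p → Fin n, (∏ i, B (f i) i) * (A.submatrix id f).det =
      ∑ x : (Fin p ↪o Fin n) × Perm (Fin p),
        (∏ i, B (x.1 (x.2 i)) i) * (A.submatrix id (x.1 ∘ x.2)).det := by
    rw [← Finset.sum_filter_add_sum_filter_not univ (fun f : Fin p → Fin n =>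
      Function.Injective f)]
    have h2 : ∑ f ∈ univ.filter (fun f : Fin p → Fin n => ¬ Function.Injective f),
        (∏ i, B (f i) i) * (A.submatrix id f).det = 0 :=
      Finset.sum_eq_zero fun f hf => by
        rw [det_not_inj A f (Finset.mem_filter.1 hf).2, mul_zero]
    rw [h2, add_zero]
    symm
    refine Finset.sum_bij (fun x _ => (x.1 : Fin p → Fin n) ∘ x.2) ?_ ?_ ?_ ?_
    · intro x _
      simp only [Finset.mem_filter, Finset.mem_univ, true_and]
      exact x.1.injective.comp x.2.injective
    · intro x _ y _ h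
      obtain ⟨h3, h4⟩ := split_unique h
      exact Prod.ext h3 h4
    · intro f hf
      obtain ⟨s, τ, h⟩ := inj_split f (Finset.mem_filter.1 hf).2
      exact ⟨(s, τ), Finset.mem_univ _, h.symm⟩
    · intro x _
      rfl
  rw [h1, Fintype.sum_prod_type]
  refine Finset.sum_congr rfl fun s _ => ?_
  rw [det_apply (B.submatrix s id), Finset.mul_sum]
  rw [← Equiv.sum_comp (Equiv.refl (Perm (Fin p)))]
  refine Finset.sum_congr rfl fun τ _ => ?_
  simp only [Equiv.refl_apply]
  have h3 : (A.submatrix id ((s : Fin p → Fin n) ∘ τ)).det =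
      ((Equiv.Perm.sign τ : ℤ) : R) * (A.submatrix id s).det := by
    have := Matrix.det_permute' τ (A.submatrix id s)
    rw [← this]
    rfl
  rw [h3]
  simp only [submatrix_apply, id_eq]
  rw [Units.smul_def, zsmul_eq_mul]
  ring

end Pool.Agent.Helper72.SUB
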