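import Pool.Agent.Helper70.SUB.SheetG
import Pool.Agent.Helper72.SUB.CB

/-!
Project SUB, row CB: compound matrices.
-/

set_option autoImplicit false

namespace Pool.Agent.Helper72.SUB

open Finset Matrix Equiv
open Pool.Agent.Helper70.SUB

/-- the subsets of cardinality `p` are the increasing maps -/
theorem oe_bij (n p : ℕ) : Function.Bijective
    (fun I : {I : Finset (Fin n) // I.card = p} => (I.1.orderEmbOfFin I.2 : Fin p ↪o Fin n)) := by
  constructor
  · intro I J h
    apply Subtype.ext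
    have h1 : Set.range (I.1.orderEmbOfFin I.2) = Set.range (J.1.orderEmbOfFin J.2) := by
      simp only at h
      rw [h]
    rw [Finset.range_orderEmbOfFin, Finset.range_orderEmbOfFin] at h1
    exact_mod_cast h1
  · intro s
    have hc : (univ.image s).card = p := by
      rw [card_image_of_injective _ s.injective, card_univ, Fintype.card_fin]
    refine ⟨⟨univ.image s, hc⟩, ?_⟩
    exact (Finset.orderEmbOfFin_unique' hc (fun x => by simp)).symm

theorem emb_inj {n p : ℕ} (I : {I : Finset (Fin n) // I.card = p}) :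
    Function.Injective (emb I) := (I.1.orderEmbOfFin I.2).injective

theorem emb_mem {n p : ℕ} (I : {I : Finset (Fin n) // I.card = p}) (k : Fin p) :
    emb I k ∈ I.1 := Finset.orderEmbOfFin_mem _ _ _

theorem emb_range {n p : ℕ} (I : {I : Finset (Fin n) // I.card = p}) :
    Set.range (emb I) = (I.1 : Set (Fin n)) := Finset.range_orderEmbOfFin _ _

theorem emb_prod {n p : ℕ} {M : Type} [CommMonoid M] (I : {I : Finset (Fin n) // I.card = p})
    (f : Fin n → M) : ∏ k, f (emb I k) = ∏ i ∈ I.1, f i := by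
  classical
  have h1 : univ.image (emb I) = I.1 := by
    apply Finset.coe_injective
    rw [Finset.coe_image, Finset.coe_univ, Set.image_univ, emb_range]
  rw [← h1, Finset.prod_image fun a _ b _ hab => emb_inj I hab]

theorem cmp_mul {n : ℕ} {R : Type} [CommRing R] (p : ℕ) (A B : Matrix (Fin n) (Fin n) R) :
    cmp p (A * B) = cmp p A * cmp p B := by
  ext I J
  have h1 : (A * B).submatrix (emb I) (emb J) =
      A.submatrix (emb I) id * B.submatrix id (emb J) :=
    Matrix.submatrix_mul A B (emb I) id (emb J) Function.bijective_id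
  show ((A * B).submatrix (emb I) (emb J)).det = _
  rw [h1, cauchy_binet, Matrix.mul_apply]
  refine (Function.Bijective.sum_comp (oe_bij n p) (fun s : Fin p ↪o Fin n =>
    ((A.submatrix (emb I) id).submatrix id s).det *
      ((B.submatrix id (emb J)).submatrix s id).det)).symm.trans ?_
  rfl

theorem cmp_one {n : ℕ} {R : Type} [CommRing R] (p : ℕ) :
    cmp p (1 : Matrix (Fin n) (Fin n) R) = 1 := by
  ext I J
  by_cases h : I = J
  · subst h
    rw [Matrix.one_apply_eq]
    show ((1 : Matrix (Fin n) (Fin n) R).submatrix (emb I) (emb I)).det = 1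
    rw [Matrix.submatrix_one _ (emb_inj I), Matrix.det_one]
  · rw [Matrix.one_apply_ne h]
    have h1 : ¬ I.1 ⊆ J.1 := by
      intro h2
      apply h
      apply Subtype.ext
      exact Finset.eq_of_subset_of_card_le h2 (by rw [I.2, J.2])
    obtain ⟨i, hi, hij⟩ := Finset.not_subset.1 h1
    have h2 : i ∈ Set.range (emb I) := by
      rw [emb_range]
      exact hi
    obtain ⟨k, hk⟩ := h2
    apply Matrix.det_eq_zero_of_row_eq_zero k
    intro l
    rw [Matrix.submatrix_apply, hk, Matrix.one_apply_ne]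
    intro h3
    exact hij (h3 ▸ emb_mem J l)

theorem cmp_transpose {n : ℕ} {R : Type} [CommRing R] (p : ℕ) (A : Matrix (Fin n) (Fin n) R) :
    cmp p Aᵀ = (cmp p A)ᵀ := by
  ext I J
  show (Aᵀ.submatrix (emb I) (emb J)).det = (A.submatrix (emb J) (emb I)).det
  rw [← Matrix.det_transpose, Matrix.transpose_submatrix, Matrix.transpose_transpose]

/-- the size of a determinant -/
theorem av_prod (hAV : ST_AV) (S : Finset ℕ) (hS : ∀ q ∈ S, q.Prime) (v : Option ℕ)
    (hv : v ∈ plc S) {ι : Type} (s : Finset ι) (f : ι → ℚ) :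
    av v (∏ i ∈ s, f i) = ∏ i ∈ s, av v (f i) := by
  classical
  obtain ⟨h0, h1, h2⟩ := hAV
  obtain ⟨g1, g2, -⟩ := h2 S hS
  have hone : av v 1 = 1 := by
    have a1 := g2 v hv 1 1
    have a2 := g1 v hv 1 one_ne_zero
    rw [mul_one] at a1
    nlinarith
  induction s using Finset.induction_on with
  | empty => simpa using hone
  | insert a s ha ih => rw [prod_insert ha, prod_insert ha, g2 v hv, ih]

theorem av_sign (hAV : ST_AV) (S : Finset ℕ) (hS : ∀ q ∈ S, q.Prime) (v : Option ℕ)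
    (hv : v ∈ plc S) {p : ℕ} (σ : Perm (Fin p)) (x : ℚ) :
    av v (Equiv.Perm.sign σ • x) = av v x := by
  obtain ⟨h0, h1, h2⟩ := hAV
  obtain ⟨g1, g2, -⟩ := h2 S hS
  have hone : av v 1 = 1 := by
    have a1 := g2 v hv 1 1
    have a2 := g1 v hv 1 one_ne_zero
    rw [mul_one] at a1
    nlinarith
  have hneg : av v (-1) = 1 := by
    have a1 := g2 v hv (-1) (-1)
    have a2 := g1 v hv (-1) (by norm_num)
    rw [neg_mul_neg, mul_one, hone] at a1
    nlinarith
  rcases Int.units_eq_one_or (Equiv.Perm.sign σ) with h | h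
  · rw [h, one_smul]
  · rw [h]
    have : ((-1 : ℤˣ) • x : ℚ) = (-1) * x := by
      simp
    rw [this, g2 v hv, hneg, one_mul]

theorem av_det_le (hAV : ST_AV) (S : Finset ℕ) (hS : ∀ q ∈ S, q.Prime) (v : Option ℕ)
    (hv : v ∈ plc S) {p : ℕ} (M : Matrix (Fin p) (Fin p) ℚ) (s t : Fin p → ℝ) (C : ℝ)
    (hs : ∀ i, 0 ≤ s i) (ht : ∀ i, 0 ≤ t i) (hC : 0 ≤ C)
    (hM : ∀ i k, av v (M i k) ≤ C * s i * t k) :
    av v M.det ≤ (p.factorial : ℝ) * (C ^ p * (∏ i, s i) * ∏ k, t k) := by
  have hAV' := hAV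
  obtain ⟨h0, h1, h2⟩ := hAV'
  obtain ⟨g1, g2, g3, g4, g5, g6, g7, g8, g9⟩ := h2 S hS
  have hB : 0 ≤ C ^ p * (∏ i, s i) * ∏ k, t k :=
    mul_nonneg (mul_nonneg (pow_nonneg hC _) (prod_nonneg fun i _ => hs i))
      (prod_nonneg fun i _ => ht i)
  have h3 := g9 v hv (Perm (Fin p)) univ
    (fun σ => Equiv.Perm.sign σ • ∏ i, M (σ i) i) _ hB (by
      intro σ _
      show av v (Equiv.Perm.sign σ • ∏ i, M (σ i) i) ≤ _
      rw [av_sign hAV S hS v hv, av_prod hAV S hS v hv]
      calc ∏ i, av v (M (σ i) i) ≤ ∏ i, (C * s (σ i) * t i) :=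
            prod_le_prod (fun i _ => h0 _ _) fun i _ => hM _ _
        _ = C ^ p * (∏ i, s i) * ∏ k, t k := by
            rw [prod_mul_distrib, prod_mul_distrib, prod_const, card_univ, Fintype.card_fin,
              Equiv.prod_comp σ s])
  rw [Matrix.det_apply]
  refine h3.trans (mul_le_mul_of_nonneg_right ?_ hB)
  have h4 : ((univ : Finset (Perm (Fin p))).card : ℝ) = (p.factorial : ℝ) := by
    rw [card_univ, Fintype.card_perm, Fintype.card_fin]
  split_ifs
  · exact h4.le
  · exact_mod_cast Nat.succ_le_of_lt (Nat.factorial_pos p)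

/-- the size of a determinant at any place, without the factorial at the finite places -/
theorem av_det_le' (hAV : ST_AV) (S : Finset ℕ) (hS : ∀ q ∈ S, q.Prime) (v : Option ℕ)
    (hv : v ∈ plc S) {p : ℕ} (M : Matrix (Fin p) (Fin p) ℚ) (s t : Fin p → ℝ) (C : ℝ)
    (hs : ∀ i, 0 ≤ s i) (ht : ∀ i, 0 ≤ t i) (hC : 0 ≤ C)
    (hM : ∀ i k, av v (M i k) ≤ C * s i * t k) :
    av v M.det ≤ (if v = none then (p.factorial : ℝ) else 1) *
      (C ^ p * (∏ i, s i) * ∏ k, t k) := by
  have hAV' := hAV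
  obtain ⟨h0, h1, h2⟩ := hAV'
  obtain ⟨g1, g2, g3, g4, g5, g6, g7, g8, g9⟩ := h2 S hS
  have hB : 0 ≤ C ^ p * (∏ i, s i) * ∏ k, t k :=
    mul_nonneg (mul_nonneg (pow_nonneg hC _) (prod_nonneg fun i _ => hs i))
      (prod_nonneg fun i _ => ht i)
  have h3 := g9 v hv (Perm (Fin p)) univ
    (fun σ => Equiv.Perm.sign σ • ∏ i, M (σ i) i) _ hB (by
      intro σ _
      show av v (Equiv.Perm.sign σ • ∏ i, M (σ i) i) ≤ _
      rw [av_sign hAV S hS v hv, av_prod hAV S hS v hv]
      calc ∏ i, av v (M (σ i) i) ≤ ∏ i, (C * s (σ i) * t i) :=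
            prod_le_prod (fun i _ => h0 _ _) fun i _ => hM _ _
        _ = C ^ p * (∏ i, s i) * ∏ k, t k := by
            rw [prod_mul_distrib, prod_mul_distrib, prod_const, card_univ, Fintype.card_fin,
              Equiv.prod_comp σ s])
  rw [Matrix.det_apply]
  have h4 : ((univ : Finset (Perm (Fin p))).card : ℝ) = (p.factorial : ℝ) := by
    rw [card_univ, Fintype.card_perm, Fintype.card_fin]
  rw [h4] at h3
  exact h3

theorem cmp_av_le (hAV : ST_AV) (n p : ℕ) (S : Finset ℕ) (v : Option ℕ)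
    (A : Matrix (Fin n) (Fin n) ℚ) (s t : Fin n → ℝ) (C : ℝ) (hS : ∀ q ∈ S, q.Prime)
    (hv : v ∈ plc S) (hs : ∀ i, 0 ≤ s i) (ht : ∀ i, 0 ≤ t i) (hC : 0 ≤ C)
    (hA : ∀ i k, av v (A i k) ≤ C * s i * t k) (I J : {I : Finset (Fin n) // I.card = p}) :
    av v (cmp p A I J) ≤ (if v = none then (p.factorial : ℝ) else 1) *
      (C ^ p * (∏ i ∈ I.1, s i) * ∏ k ∈ J.1, t k) := by
  have h1 := av_det_le' hAV S hS v hv (A.submatrix (emb I) (emb J)) (fun k => s (emb I k))
    (fun k => t (emb J k)) C (fun i => hs _) (fun i => ht _) hC (fun i k => hA _ _)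
  rw [emb_prod I s, emb_prod J t] at h1
  exact h1

/-- **Row CB.** -/
theorem CB (hAV : ST_AV) : ST_CB := by
  intro n p
  refine ⟨cmp_mul p, cmp_one p, cmp_transpose p, ?_, ?_⟩
  · intro A hA
    have h1 : cmp p A * cmp p A⁻¹ = 1 := by
      rw [← cmp_mul, Matrix.mul_nonsing_inv _ (isUnit_iff_ne_zero.2 hA), cmp_one]
    constructor
    · intro h2
      have h3 := congrArg Matrix.det h1
      rw [Matrix.det_mul, h2, zero_mul, Matrix.det_one] at h3
      exact zero_ne_one h3
    · exact (Matrix.inv_eq_right_inv h1).symm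
  · intro S v A s t C hS hv hs ht hC hA I J
    have h1 := av_det_le hAV S hS v hv (A.submatrix (emb I) (emb J)) (fun k => s (emb I k))
      (fun k => t (emb J k)) C (fun i => hs _) (fun i => ht _) hC (fun i k => hA _ _)
    rw [emb_prod I s, emb_prod J t] at h1
    refine h1.trans (le_of_eq ?_)
    ring

end Pool.Agent.Helper72.SUB
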