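import Pool.Agent.Helper70.SUB.SheetA

/-!
Project SUB, rows EXTR and BINX.
-/

set_option autoImplicit false

namespace Pool.Agent.Helper72.SUB

open Finset
open Pool.Agent.Helper70.SUB

/-- **Row EXTR.** -/
theorem EXTR : ST_EXTR := by
  intro τ x y ε hε hne hcon
  have h1 : ∀ j : ℕ, ∃ s, (2 + ε) * Real.log |((y s ^ 2 - x s ^ 3 : ℤ) : ℝ)| + j
      < Real.log |(x s : ℝ)| := by
    intro j
    by_contra hc
    push Not at hc
    exact hcon ⟨j, hc⟩
  choose f hf using h1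
  have hd : ∀ j, 1 ≤ |((y (f j) ^ 2 - x (f j) ^ 3 : ℤ) : ℝ)| := by
    intro j
    have h2 : y (f j) ^ 2 - x (f j) ^ 3 ≠ 0 := sub_ne_zero.2 (hne _)
    exact_mod_cast Int.one_le_abs h2
  have hl : ∀ j, 0 ≤ Real.log |((y (f j) ^ 2 - x (f j) ^ 3 : ℤ) : ℝ)| := fun j =>
    Real.log_nonneg (hd j)
  have hx : ∀ j : ℕ, (j : ℝ) < Real.log |(x (f j) : ℝ)| := by
    intro j
    have h3 := hf j
    have h4 : 0 ≤ (2 + ε) * Real.log |((y (f j) ^ 2 - x (f j) ^ 3 : ℤ) : ℝ)| :=
      mul_nonneg (by linarith) (hl j)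
    linarith
  have hxp : ∀ j : ℕ, 0 < |(x (f j) : ℝ)| := by
    intro j
    rcases (abs_nonneg (x (f j) : ℝ)).lt_or_eq with h | h
    · exact h
    · have h3 := hx j
      rw [← h, Real.log_zero] at h3
      have : (0 : ℝ) ≤ j := Nat.cast_nonneg _
      linarith
  refine ⟨f, fun j => ?_, fun j => ?_⟩
  · have h3 : Real.log |(x (f j) : ℝ)| ≤ |(x (f j) : ℝ)| - 1 := Real.log_le_sub_one_of_pos (hxp j)
    have := hx j
    linarith
  · have h3 := hf j
    have h4 : Real.log |((y (f j) ^ 2 - x (f j) ^ 3 : ℤ) : ℝ)| ≤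
        1 / (2 + ε) * Real.log |(x (f j) : ℝ)| := by
      rw [div_mul_eq_mul_div, one_mul, le_div_iff₀ (by linarith)]
      have : (0 : ℝ) ≤ j := Nat.cast_nonneg _
      linarith
    have h5 : 0 < |((y (f j) ^ 2 - x (f j) ^ 3 : ℤ) : ℝ)| := lt_of_lt_of_le one_pos (hd j)
    rw [← Real.log_rpow (hxp j)] at h4
    exact (Real.log_le_log_iff h5 (Real.rpow_pos_of_pos (hxp j) _)).1 h4

/-- **Row BINX.** -/
theorem BINX : ST_BINX := by
  intro α K _ _
  have h1 : HasFPowerSeriesOnBall (fun x : ℝ => (1 + x) ^ (α : ℝ))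
      (binomialSeries ℝ (α : ℝ)) 0 1 := Real.one_add_rpow_hasFPowerSeriesOnBall_zero
  have h2 : (((3 / 4 : NNReal)) : ENNReal) < 1 := by
    have : (3 / 4 : NNReal) < 1 := by
      rw [div_lt_one (by norm_num)]
      norm_num
    exact_mod_cast this
  obtain ⟨a, ha, C, hC, hb⟩ := h1.uniform_geometric_approx' h2
  refine ⟨fun k => Ring.choose α k, max 1 (C * (a * (4 / 3)) ^ K), le_max_left _ _, ?_⟩
  intro v hv
  have h3 : v ∈ Metric.ball (0 : ℝ) ((3 / 4 : NNReal) : ℝ) := by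
    rw [Metric.mem_ball, dist_zero_right, Real.norm_eq_abs]
    push_cast
    linarith
  have h4 := hb v h3 K
  rw [zero_add, Real.norm_eq_abs, Real.norm_eq_abs] at h4
  have h5 : (binomialSeries ℝ (α : ℝ)).partialSum K v =
      ∑ k ∈ Finset.range K, ((Ring.choose α k : ℚ) : ℝ) * v ^ k := by
    unfold FormalMultilinearSeries.partialSum
    refine Finset.sum_congr rfl fun k _ => ?_
    rw [binomialSeries_apply]
    have h6 : Ring.choose (α : ℝ) k = ((Ring.choose α k : ℚ) : ℝ) := by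
      have := Ring.map_choose (Rat.castHom ℝ) α k
      simpa using this.symm
    rw [h6, smul_eq_mul]
    congr 1
    simp
  rw [h5] at h4
  refine h4.trans ?_
  have h7 : C * (a * (|v| / ((3 / 4 : NNReal) : ℝ))) ^ K = C * (a * (4 / 3)) ^ K * |v| ^ K := by
    rw [mul_assoc, ← mul_pow]
    congr 2
    push_cast
    ring
  rw [h7]
  exact mul_le_mul_of_nonneg_right (le_max_right _ _) (pow_nonneg (abs_nonneg _) _)

end Pool.Agent.Helper72.SUB
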