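import Pool.Agent.Helper70.SUB.SheetR

/-!
Project SUB, row GRID: vanishing on the product of the hyperplanes.
-/

set_option autoImplicit false

namespace Pool.Agent.Helper72.SUB

open Finset
open Pool.Agent.Helper70.SUB

/-- the substitution of linear forms in every block -/
noncomputable def bsub {m n k : ℕ} (g : Fin m → Fin k → Fin n → ℚ) :
    MvPolynomial (Fin m × Fin n) ℚ →ₐ[ℚ] MvPolynomial (Fin m × Fin k) ℚ :=
  MvPolynomial.aeval
    (fun hi => ∑ l, MvPolynomial.C (g hi.1 l hi.2) * MvPolynomial.X (hi.1, l))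

theorem bsub_X {m n k : ℕ} (g : Fin m → Fin k → Fin n → ℚ) (hi : Fin m × Fin n) :
    bsub g (MvPolynomial.X hi) =
      ∑ l, MvPolynomial.C (g hi.1 l hi.2) * MvPolynomial.X (hi.1, l) :=
  MvPolynomial.aeval_X _ _

/-- the block weights -/
def bw {m n : ℕ} : Fin m × Fin n → (Fin m → ℕ) := fun hi => Pi.single hi.1 1

theorem weight_bw {m n : ℕ} (J : Fin m × Fin n →₀ ℕ) (h : Fin m) :
    Finsupp.weight (bw (m := m) (n := n)) J h = ∑ i, J (h, i) := by
  rw [Finsupp.weight_eq_sum, Finset.sum_apply, Fintype.sum_prod_type]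
  rw [Finset.sum_eq_single h]
  · refine Finset.sum_congr rfl fun i _ => ?_
    simp [bw]
  · intro h' _ hne
    refine Finset.sum_eq_zero fun i _ => ?_
    simp [bw, Pi.single_eq_of_ne hne.symm]
  · intro h'
    exact absurd (mem_univ h) h'

/-- the supports before and after the substitution -/
theorem bsub_supp {m n k : ℕ} (g : Fin m → Fin k → Fin n → ℚ)
    (T : MvPolynomial (Fin m × Fin n) ℚ) (I : Fin m × Fin k →₀ ℕ) (hI : (bsub g T).coeff I ≠ 0) :
    ∃ J, T.coeff J ≠ 0 ∧ ∀ h, ∑ i, J (h, i) = ∑ l, I (h, l) := by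
  classical
  by_contra hcon
  push Not at hcon
  apply hI
  unfold bsub
  rw [MvPolynomial.aeval_def, MvPolynomial.eval₂_eq', MvPolynomial.coeff_sum]
  refine Finset.sum_eq_zero fun J hJ => ?_
  obtain ⟨h, hh⟩ := hcon J (MvPolynomial.mem_support_iff.1 hJ)
  have h1 : MvPolynomial.IsWeightedHomogeneous (bw (m := m) (n := k))
      (∏ hi : Fin m × Fin n, (∑ l, MvPolynomial.C (g hi.1 l hi.2) *
        MvPolynomial.X (hi.1, l) : MvPolynomial (Fin m × Fin k) ℚ) ^ (J hi))
      (∑ hi, J hi • (bw (m := m) (n := n)) hi) := by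
    refine MvPolynomial.IsWeightedHomogeneous.prod _ _ _ fun hi _ => ?_
    refine MvPolynomial.IsWeightedHomogeneous.pow ?_ _
    refine MvPolynomial.IsWeightedHomogeneous.sum _ _ _ fun l _ => ?_
    refine MvPolynomial.IsWeightedHomogeneous.C_mul ?_ _
    exact MvPolynomial.isWeightedHomogeneous_X ℚ (bw (m := m) (n := k)) (hi.1, l)
  have h2 : MvPolynomial.coeff I (∏ hi : Fin m × Fin n,
      (∑ l, MvPolynomial.C (g hi.1 l hi.2) *
        MvPolynomial.X (hi.1, l) : MvPolynomial (Fin m × Fin k) ℚ) ^ (J hi)) = 0 := by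
    refine h1.coeff_eq_zero I ?_
    intro h3
    have h4 := congrFun h3 h
    rw [weight_bw, ← Finsupp.weight_eq_sum, weight_bw] at h4
    exact hh h4.symm
  rw [MvPolynomial.algebraMap_eq, MvPolynomial.coeff_C_mul, h2, mul_zero]

/-- shift and substitution -/
theorem shf_bsub {m n k : ℕ} (g : Fin m → Fin k → Fin n → ℚ) (u : Fin m × Fin k → ℚ)
    (T : MvPolynomial (Fin m × Fin n) ℚ) :
    shf u (bsub g T) = bsub g (shf (fun hi => ∑ l, g hi.1 l hi.2 * u (hi.1, l)) T) := by
  have h1 : (shf u).comp (bsub g) =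
      (bsub g).comp (shf (fun hi => ∑ l, g hi.1 l hi.2 * u (hi.1, l))) := by
    apply MvPolynomial.algHom_ext
    intro hi
    rw [AlgHom.comp_apply, AlgHom.comp_apply, bsub_X]
    have h2 : shf (fun hi : Fin m × Fin n => ∑ l, g hi.1 l hi.2 * u (hi.1, l))
        (MvPolynomial.X hi : MvPolynomial (Fin m × Fin n) ℚ) =
        MvPolynomial.X hi + MvPolynomial.C (∑ l, g hi.1 l hi.2 * u (hi.1, l)) :=
      MvPolynomial.aeval_X _ _
    rw [h2, map_add, bsub_X, map_sum]
    have h3 : bsub g (MvPolynomial.C (∑ l, g hi.1 l hi.2 * u (hi.1, l)) :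
        MvPolynomial (Fin m × Fin n) ℚ) = MvPolynomial.C (∑ l, g hi.1 l hi.2 * u (hi.1, l)) := by
      unfold bsub
      rw [MvPolynomial.aeval_C, MvPolynomial.algebraMap_eq]
    rw [h3, map_sum, ← Finset.sum_add_distrib]
    refine Finset.sum_congr rfl fun l _ => ?_
    have h4 : shf u (MvPolynomial.X (hi.1, l) : MvPolynomial (Fin m × Fin k) ℚ) =
        MvPolynomial.X (hi.1, l) + MvPolynomial.C (u (hi.1, l)) := MvPolynomial.aeval_X _ _
    have h5 : shf u (MvPolynomial.C (g hi.1 l hi.2) : MvPolynomial (Fin m × Fin k) ℚ) =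
        MvPolynomial.C (g hi.1 l hi.2) := by
      unfold shf
      rw [MvPolynomial.aeval_C, MvPolynomial.algebraMap_eq]
    rw [map_mul, h4, h5, MvPolynomial.C_mul, mul_add]
  exact congrArg (fun f => f T) h1

theorem eval_bsub {m n k : ℕ} (g : Fin m → Fin k → Fin n → ℚ) (u : Fin m × Fin k → ℚ)
    (T : MvPolynomial (Fin m × Fin n) ℚ) :
    MvPolynomial.eval u (bsub g T) =
      MvPolynomial.eval (fun hi => ∑ l, g hi.1 l hi.2 * u (hi.1, l)) T := by
  have h1 : (MvPolynomial.aeval u : MvPolynomial (Fin m × Fin k) ℚ →ₐ[ℚ] ℚ).comp (bsub g) =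
      MvPolynomial.aeval (fun hi : Fin m × Fin n => ∑ l, g hi.1 l hi.2 * u (hi.1, l)) := by
    apply MvPolynomial.algHom_ext
    intro hi
    rw [AlgHom.comp_apply, bsub_X, MvPolynomial.aeval_X, map_sum]
    refine Finset.sum_congr rfl fun l _ => ?_
    rw [map_mul, MvPolynomial.aeval_X, MvPolynomial.aeval_C]
    rfl
  have h2 := congrArg (fun f => f T) h1
  simp only [AlgHom.comp_apply] at h2
  exact h2

/-- **Row GRID.** -/
theorem GRID (hHD : ST_HD) (hGRD : ST_GRD) : ST_GRID := by
  classical
  intro m k r P a θ g hr hP hθ ha hz J0 hJ0 u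
  obtain ⟨d1, d2, d3, d4, d5, d6, d7, d8, d9⟩ := hHD (Fin m × Fin (k + 1)) ℚ
  obtain ⟨e1, e2, e3, e4, e5, e6, e7, e8, e9⟩ := hHD (Fin m × Fin (k + 1)) ℤ
  obtain ⟨c1, c2, c3, c4, c5, c6, c7, c8, c9⟩ := hHD (Fin m × Fin k) ℚ
  set gq : Fin m → Fin k → Fin (k + 1) → ℚ := fun h l i => (g h l i : ℚ) with hgq
  set Q : MvPolynomial (Fin m × Fin (k + 1)) ℚ := toQ (hd J0 P) with hQ
  set F : MvPolynomial (Fin m × Fin k) ℚ := bsub gq Q with hF
  -- the support of Q
  have hQs : ∀ J, Q.coeff J ≠ 0 → ∀ h, ∑ i, J (h, i) ≤ r h := by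
    intro J hJ h
    have h1 : (hd J0 P).coeff J ≠ 0 := by
      intro h2
      apply hJ
      rw [hQ]
      unfold toQ
      rw [MvPolynomial.coeff_map, h2, map_zero]
    rw [e1] at h1
    have h2 := hP (J + J0) (right_ne_zero_of_mul h1) h
    rw [← h2]
    refine Finset.sum_le_sum fun i _ => ?_
    rw [Finsupp.add_apply]
    omega
  -- the multiplicity bounds
  set t : Fin m × Fin k → ℕ := fun hl => ⌊θ * r hl.1 / (2 * m * k)⌋₊ with ht
  have hFz : F = 0 := by
    refine hGRD (Fin m × Fin k) F a t (fun hl => r hl.1) ?_ ?_ ?_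
    · intro s
      rw [MvPolynomial.degreeOf_le_iff]
      intro I hI
      obtain ⟨J, hJ1, hJ2⟩ := bsub_supp gq Q I (MvPolynomial.mem_support_iff.1 hI)
      have h1 := hQs J hJ1 s.1
      rw [hJ2 s.1] at h1
      refine le_trans ?_ h1
      exact Finset.single_le_sum (f := fun l => I (s.1, l)) (fun l _ => Nat.zero_le _)
        (mem_univ s.2)
    · intro s
      have hm : 0 < m := lt_of_le_of_lt (Nat.zero_le _) s.1.2
      have hk : 0 < k := lt_of_le_of_lt (Nat.zero_le _) s.2.2
      have hm' : (0 : ℝ) < m := by exact_mod_cast hm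
      have hk' : (0 : ℝ) < k := by exact_mod_cast hk
      have h1 : θ * r s.1 / (2 * m * k) < (t s : ℝ) + 1 := Nat.lt_floor_add_one _
      have hpos : (0 : ℝ) < 2 * m * k := by positivity
      have hr1 : (1 : ℝ) ≤ r s.1 := by exact_mod_cast hr s.1
      have ha0 : (0 : ℝ) < a := by
        by_contra hc
        have : (a : ℝ) * θ ≤ 0 := mul_nonpos_of_nonpos_of_nonneg (not_lt.1 hc) hθ.le
        linarith
      have h2 : (r s.1 : ℝ) < a * ((t s : ℝ) + 1) := by
        rw [div_lt_iff₀ hpos] at h1
        have h3 : (r s.1 : ℝ) * (2 * m * k) < (a * ((t s : ℝ) + 1)) * (2 * m * k) := by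
          calc (r s.1 : ℝ) * (2 * m * k) ≤ r s.1 * (a * θ) :=
                mul_le_mul_of_nonneg_left ha (by linarith)
            _ = a * (θ * r s.1) := by ring
            _ < a * (((t s : ℝ) + 1) * (2 * m * k)) := mul_lt_mul_of_pos_left h1 ha0
            _ = (a * ((t s : ℝ) + 1)) * (2 * m * k) := by ring
        exact lt_of_mul_lt_mul_right h3 hpos.le
      exact_mod_cast h2
    · intro I hI v hv
      rw [← c5, hF, shf_bsub]
      by_contra hne
      obtain ⟨J, hJ1, hJ2⟩ := bsub_supp gq _ I hne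
      apply hJ1
      rw [d5, hQ, ← e9, e7, MvPolynomial.C_mul']
      have hw : ∑ hi : Fin m × Fin (k + 1), (((J + J0) hi : ℕ) : ℝ) / r hi.1 ≤ θ := by
        have h1 : ∑ hi : Fin m × Fin (k + 1), (((J + J0) hi : ℕ) : ℝ) / r hi.1 =
            ∑ hi : Fin m × Fin (k + 1), (J hi : ℝ) / r hi.1 +
            ∑ hi : Fin m × Fin (k + 1), (J0 hi : ℝ) / r hi.1 := by
          rw [← Finset.sum_add_distrib]
          refine Finset.sum_congr rfl fun hi _ => ?_
          rw [Finsupp.add_apply]
          push_cast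
          ring
        have h2 : ∑ hi : Fin m × Fin (k + 1), (J hi : ℝ) / r hi.1 =
            ∑ hl : Fin m × Fin k, (I hl : ℝ) / r hl.1 := by
          rw [Fintype.sum_prod_type, Fintype.sum_prod_type]
          refine Finset.sum_congr rfl fun h _ => ?_
          have h3 := hJ2 h
          simp only
          rw [← Finset.sum_div, ← Finset.sum_div]
          congr 1
          exact_mod_cast h3
        have h3 : ∑ hl : Fin m × Fin k, (I hl : ℝ) / r hl.1 ≤ θ / 2 := by
          have h4 : ∀ hl : Fin m × Fin k, (I hl : ℝ) / r hl.1 ≤ θ / (2 * m * k) := by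
            intro hl
            have hr1 : (1 : ℝ) ≤ r hl.1 := by exact_mod_cast hr hl.1
            have h5 : (I hl : ℝ) ≤ t hl := by exact_mod_cast hI hl
            have h6 : (t hl : ℝ) ≤ θ * r hl.1 / (2 * m * k) :=
              Nat.floor_le (by positivity)
            rw [div_le_iff₀ (by linarith)]
            calc (I hl : ℝ) ≤ θ * r hl.1 / (2 * m * k) := h5.trans h6
              _ = θ / (2 * m * k) * r hl.1 := by ring
          calc ∑ hl : Fin m × Fin k, (I hl : ℝ) / r hl.1
              ≤ ∑ hl : Fin m × Fin k, θ / (2 * m * k) := Finset.sum_le_sum fun hl _ => h4 hl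
            _ = (m * k) * (θ / (2 * m * k)) := by
                rw [Finset.sum_const, Finset.card_univ, Fintype.card_prod, Fintype.card_fin,
                  Fintype.card_fin, nsmul_eq_mul]
                push_cast
                ring
            _ ≤ θ / 2 := by
                rcases Nat.eq_zero_or_pos m with h | h
                · subst h
                  simp only [Nat.cast_zero, zero_mul]
                  linarith
                · rcases Nat.eq_zero_or_pos k with h' | h'
                  · subst h'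
                    simp only [Nat.cast_zero, mul_zero, zero_mul]
                    linarith
                  · have hm' : (0 : ℝ) < m := by exact_mod_cast h
                    have hk' : (0 : ℝ) < k := by exact_mod_cast h'
                    apply le_of_eq
                    field_simp
        linarith
      have hu := hz (J + J0) hw (fun h l => v (h, l)) (fun h l => hv (h, l))
      have h7 : MvPolynomial.eval (fun hi : Fin m × Fin (k + 1) =>
          ∑ l, gq hi.1 l hi.2 * (v (hi.1, l) : ℚ)) (toQ (hd (J + J0) P)) = 0 := by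
        have h8 : (fun hi : Fin m × Fin (k + 1) => ∑ l, gq hi.1 l hi.2 * (v (hi.1, l) : ℚ)) =
            fun hi => (Int.castRingHom ℚ)
              (bl (fun h i => ∑ l, ((v (h, l) : ℕ) : ℤ) * g h l i) hi) := by
          funext hi
          unfold bl
          rw [map_sum]
          refine Finset.sum_congr rfl fun l _ => ?_
          simp only [hgq, eq_intCast]
          push_cast
          ring
        rw [h8]
        unfold toQ
        rw [MvPolynomial.eval_map, ← Function.comp_def]
        have h9 := MvPolynomial.eval₂_comp_left (Int.castRingHom ℚ) (RingHom.id ℤ)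
          (bl fun h i => ∑ l, ((v (h, l) : ℕ) : ℤ) * g h l i) (hd (J + J0) P)
        rw [RingHom.comp_id] at h9
        rw [← h9]
        show (Int.castRingHom ℚ) (MvPolynomial.eval
          (bl fun h i => ∑ l, ((v (h, l) : ℕ) : ℤ) * g h l i) (hd (J + J0) P)) = 0
        rw [hu, map_zero]
      unfold toQ at h7 ⊢
      rw [MvPolynomial.smul_eq_C_mul, map_mul, MvPolynomial.eval_mul]
      rw [h7, mul_zero]
  have h9 := eval_bsub gq (fun hl => u hl.1 hl.2) Q
  rw [← hF, hFz, map_zero] at h9
  rw [h9]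
  congr 2
  funext hi
  unfold bl
  refine Finset.sum_congr rfl fun l _ => ?_
  simp only [hgq]
  ring

end Pool.Agent.Helper72.SUB
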