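import Pool.Agent.Helper72.SUB.CBR

/-!
Project SUB, row PLK: a Pluecker vector determines a linear form which kills the subspace.
-/

set_option autoImplicit false

namespace Pool.Agent.Helper72.SUB

open Finset Matrix Equiv
open Pool.Agent.Helper70.SUB

/-- the image of an increasing map -/
def imJ {n p : ℕ} (s : Fin p ↪o Fin n) : {I : Finset (Fin n) // I.card = p} :=
  ⟨univ.image s, by rw [card_image_of_injective _ s.injective, card_univ, Fintype.card_fin]⟩

theorem emb_imJ {n p : ℕ} (s : Fin p ↪o Fin n) : emb (imJ s) = s := by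
  have h1 : s = (imJ s).1.orderEmbOfFin (imJ s).2 :=
    Finset.orderEmbOfFin_unique' (imJ s).2 (fun x => by simp [imJ])
  unfold emb
  rw [← h1]

theorem imJ_emb {n p : ℕ} (I : {I : Finset (Fin n) // I.card = p}) :
    imJ (I.1.orderEmbOfFin I.2) = I := by
  apply Subtype.ext
  apply Finset.coe_injective
  show ((univ.image (emb I) : Finset (Fin n)) : Set (Fin n)) = _
  rw [Finset.coe_image, Finset.coe_univ, Set.image_univ, emb_range]

theorem extend (n p : ℕ) (h : {I : Finset (Fin n) // I.card = p} → ℚ) :
    ∃ H : (Fin p → Fin n) → ℚ, (∀ I, H (emb I) = h I) ∧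
      ∀ (D : Matrix (Fin n) (Fin p) ℚ) (w : ℚ), (∀ I, (D.submatrix (emb I) id).det = w * h I) →
        ∀ f, (D.submatrix f id).det = w * H f := by
  classical
  have h1 : ∀ f : Fin p → Fin n, ∃ c : ℚ,
      (¬ Function.Injective f → c = 0) ∧
      (∀ (s : Fin p ↪o Fin n) (τ : Perm (Fin p)), f = s ∘ τ →
        c = ((Equiv.Perm.sign τ : ℤ) : ℚ) * h (imJ s)) := by
    intro f
    by_cases hf : Function.Injective f
    · obtain ⟨s, τ, hst⟩ := inj_split f hf
      refine ⟨((Equiv.Perm.sign τ : ℤ) : ℚ) * h (imJ s), fun h' => absurd hf h', ?_⟩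
      intro s' τ' h'
      obtain ⟨a1, a2⟩ := split_unique (hst.symm.trans h')
      rw [a1, a2]
    · refine ⟨0, fun _ => rfl, ?_⟩
      intro s τ h'
      exact absurd (h' ▸ s.injective.comp τ.injective) hf
  choose H hH1 hH2 using h1
  refine ⟨H, ?_, ?_⟩
  · intro I
    have h2 := hH2 (emb I) (I.1.orderEmbOfFin I.2) 1 (by
      funext k
      rfl)
    rw [h2, Equiv.Perm.sign_one, imJ_emb]
    simp
  · intro D w hD f
    by_cases hf : Function.Injective f
    · obtain ⟨s, τ, hst⟩ := inj_split f hf
      rw [hH2 f s τ hst]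
      have h3 : D.submatrix f id = (D.submatrix (emb (imJ s)) id).submatrix τ id := by
        rw [emb_imJ, Matrix.submatrix_submatrix, hst]
        rfl
      rw [h3, Matrix.det_permute, hD]
      ring
    · rw [hH1 f hf, mul_zero]
      unfold Function.Injective at hf
      push Not at hf
      obtain ⟨i, j, hij, hne⟩ := hf
      exact det_zero_of_row_eq hne (by funext k; simp [hij])

/-- **Row PLK.** -/
theorem PLK : ST_PLK := by
  classical
  intro n p h hp hh
  obtain ⟨q, rfl⟩ : ∃ q, p = q + 1 := ⟨p - 1, by omega⟩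
  obtain ⟨I0, hI0⟩ : ∃ I, h I ≠ 0 := by
    by_contra hc
    push Not at hc
    exact hh (funext hc)
  obtain ⟨H, hH1, hH2⟩ := extend n (q + 1) h
  refine ⟨fun i => H (Fin.cons i (fun k => emb I0 k.succ)), ?_, ?_⟩
  · intro h0
    have h1 := congrFun h0 (emb I0 0)
    have h2 : (Fin.cons (emb I0 0) (fun k : Fin q => emb I0 k.succ) : Fin (q + 1) → Fin n)
        = emb I0 := by
      funext k
      refine Fin.cases ?_ (fun j => ?_) k
      · simp
      · simp
    simp only [Pi.zero_apply] at h1
    rw [h2, hH1] at h1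
    exact hI0 h1
  · intro D w hw hD x hx
    have h1 : ∀ i, (w * H (Fin.cons i (fun k => emb I0 k.succ))) =
        ∑ l : Fin (q + 1), D i l * ((-1) ^ (l : ℕ) *
          (D.submatrix (fun k : Fin q => emb I0 k.succ) l.succAbove).det) := by
      intro i
      rw [← hH2 D w hD, Matrix.det_succ_row_zero]
      refine Finset.sum_congr rfl fun l _ => ?_
      have h2 : ((D.submatrix (Fin.cons i (fun k => emb I0 k.succ)) id).submatrix Fin.succ
          l.succAbove) = D.submatrix (fun k : Fin q => emb I0 k.succ) l.succAbove := by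
        ext a b
        simp
      rw [h2, Matrix.submatrix_apply, Fin.cons_zero, id_eq]
      ring
    have h3 : w * ∑ i, H (Fin.cons i (fun k => emb I0 k.succ)) * x i = 0 := by
      rw [Finset.mul_sum]
      calc ∑ i, w * (H (Fin.cons i (fun k => emb I0 k.succ)) * x i)
          = ∑ i, (∑ l : Fin (q + 1), D i l * ((-1) ^ (l : ℕ) *
          (D.submatrix (fun k : Fin q => emb I0 k.succ) l.succAbove).det)) * x i := by
            refine Finset.sum_congr rfl fun i _ => ?_
            rw [← h1 i, mul_assoc]
        _ = ∑ l : Fin (q + 1), ((-1) ^ (l : ℕ) *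
          (D.submatrix (fun k : Fin q => emb I0 k.succ) l.succAbove).det) *
              ∑ i, D i l * x i := by
            simp only [Finset.sum_mul, Finset.mul_sum]
            rw [Finset.sum_comm]
            refine Finset.sum_congr rfl fun l _ => Finset.sum_congr rfl fun i _ => ?_
            ring
        _ = 0 := by
            refine Finset.sum_eq_zero fun l _ => ?_
            rw [hx l, mul_zero]
    exact (mul_eq_zero.1 h3).resolve_left hw

end Pool.Agent.Helper72.SUB
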