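import Mathlib

/-!
A polynomial in `m + 1` variables as a sum of products with two independent families.
-/

set_option autoImplicit false

namespace Pool.Agent.Helper72.SUB

open Finset

variable {K : Type} [Field K]

/-- vectors `a 0, …, a d` of a space: a basis of their span and the coefficients -/
theorem span_decomp {V : Type} [AddCommGroup V] [Module K V] (d : ℕ) (a : Fin (d + 1) → V) :
    ∃ (k : ℕ) (φ : Fin k → V) (c : Fin (d + 1) → Fin k → K), k ≤ d + 1 ∧
      LinearIndependent K φ ∧ (∀ j, φ j ∈ Submodule.span K (Set.range a)) ∧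
      (∀ n, a n = ∑ j, c n j • φ j) ∧
      ∀ t : Fin k → K, (∀ n, ∑ j, c n j * t j = 0) → t = 0 := by
  classical
  let W : Submodule K V := Submodule.span K (Set.range a)
  have hfin : FiniteDimensional K W := FiniteDimensional.span_of_finite K (Set.finite_range a)
  let b : Module.Basis (Fin (Module.finrank K W)) K W := Module.finBasis K W
  have haW : ∀ n, a n ∈ W := fun n => Submodule.subset_span ⟨n, rfl⟩
  refine ⟨Module.finrank K W, fun j => (b j : V), fun n j => b.repr ⟨a n, haW n⟩ j, ?_, ?_,
    fun j => (b j).2, ?_, ?_⟩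
  · have h1 : Module.finrank K W ≤ (Set.range a).toFinset.card := finrank_span_le_card _
    refine h1.trans ?_
    rw [Set.toFinset_range]
    exact Finset.card_image_le.trans (by simp)
  · exact b.linearIndependent.map' W.subtype (Submodule.ker_subtype W)
  · intro n
    have h1 := b.sum_repr ⟨a n, haW n⟩
    have h2 := congrArg (fun x : W => (x : V)) h1
    simp only [Submodule.coe_sum, Submodule.coe_smul] at h2
    exact h2.symm
  · intro t ht
    -- the functional with coordinates `t` vanishes on the span
    let g : W →ₗ[K] K := b.constr K t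
    have h1 : ∀ n, g ⟨a n, haW n⟩ = 0 := by
      intro n
      have h2 : g ⟨a n, haW n⟩ = ∑ j, b.repr ⟨a n, haW n⟩ j * t j := by
        simp only [g]
        rw [Module.Basis.constr_apply_fintype]
        refine Finset.sum_congr rfl fun j _ => ?_
        rw [smul_eq_mul]
        rfl
      rw [h2]
      exact ht n
    have h3 : g = 0 := by
      have h4 : ∀ x : V, ∀ hx : x ∈ W, g ⟨x, hx⟩ = 0 := by
        intro x hx
        induction hx using Submodule.span_induction with
        | mem x h =>
          obtain ⟨n, rfl⟩ := h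
          exact h1 n
        | zero =>
          have : (⟨0, Submodule.zero_mem W⟩ : W) = 0 := rfl
          rw [this, map_zero]
        | add x y hx hy h5 h6 =>
          have : (⟨x + y, Submodule.add_mem W hx hy⟩ : W) = ⟨x, hx⟩ + ⟨y, hy⟩ := rfl
          rw [this, map_add, h5, h6, add_zero]
        | smul s x hx h5 =>
          have : (⟨s • x, Submodule.smul_mem W s hx⟩ : W) = s • ⟨x, hx⟩ := rfl
          rw [this, map_smul, h5, smul_zero]
      ext x
      exact h4 x.1 x.2
    funext j
    have h4 : g (b j) = t j := by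
      simp only [g]
      rw [Module.Basis.constr_basis]
    rw [← h4, h3]
    rfl

/-- **Decomposition.** -/
theorem decomp (m : ℕ) (P : MvPolynomial (Fin (m + 1)) K) :
    ∃ (k : ℕ) (φ : Fin k → MvPolynomial (Fin m) K) (ψ : Fin k → Polynomial K),
      k ≤ P.degreeOf 0 + 1 ∧ LinearIndependent K φ ∧ LinearIndependent K ψ ∧
      (∀ j, (ψ j).natDegree ≤ P.degreeOf 0) ∧
      (∀ j, φ j ∈ Submodule.span K (Set.range fun n => (MvPolynomial.finSuccEquiv K m P).coeff n)) ∧
      MvPolynomial.finSuccEquiv K m P =
        ∑ j, Polynomial.C (φ j) * (ψ j).map MvPolynomial.C := by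
  classical
  obtain ⟨d, hd⟩ : ∃ d, d = P.degreeOf 0 := ⟨_, rfl⟩
  obtain ⟨Q, hQ⟩ : ∃ Q, Q = MvPolynomial.finSuccEquiv K m P := ⟨_, rfl⟩
  have hdQ : Q.natDegree = d := by rw [hQ, hd, MvPolynomial.natDegree_finSuccEquiv]
  obtain ⟨k, φ, c, hk, hφ, hφs, hc, ht⟩ := span_decomp (K := K) d (fun n : Fin (d + 1) => Q.coeff n)
  have hψ : ∀ j n, (∑ n : Fin (d + 1), Polynomial.C (c n j) * Polynomial.X ^ (n : ℕ)).coeff n =
      if h : n < d + 1 then c ⟨n, h⟩ j else 0 := by
    intro j n
    rw [Polynomial.finsetSum_coeff]
    simp only [Polynomial.coeff_C_mul, Polynomial.coeff_X_pow]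
    split_ifs with h
    · rw [Finset.sum_eq_single (⟨n, h⟩ : Fin (d + 1))]
      · simp
      · intro i _ hi
        have : n ≠ (i : ℕ) := fun h' => hi (Fin.ext h'.symm)
        simp [this]
      · intro h'
        exact absurd (Finset.mem_univ _) h'
    · refine Finset.sum_eq_zero fun i _ => ?_
      have : n ≠ (i : ℕ) := fun h' => h (h' ▸ i.2)
      simp [this]
  refine ⟨k, φ, fun j => ∑ n : Fin (d + 1), Polynomial.C (c n j) * Polynomial.X ^ (n : ℕ),
    by rw [← hd]; exact hk, hφ, ?_, ?_, ?_, ?_⟩
  · rw [Fintype.linearIndependent_iff]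
    intro t h0
    have h1 : t = 0 := by
      refine ht t fun n => ?_
      have h2 := congrArg (fun p : Polynomial K => p.coeff n) h0
      simp only [Polynomial.finsetSum_coeff, Polynomial.coeff_smul, smul_eq_mul,
        Polynomial.coeff_zero] at h2
      rw [← h2]
      refine Finset.sum_congr rfl fun j _ => ?_
      have h3 := hψ j n
      rw [Polynomial.finsetSum_coeff] at h3
      rw [h3, dif_pos n.2, mul_comm]
    intro j
    rw [h1]
    rfl
  · intro j
    rw [← hd, Polynomial.natDegree_le_iff_coeff_eq_zero]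
    intro n hn
    rw [hψ j n, dif_neg (by omega)]
  · intro j
    refine Submodule.span_mono ?_ (hφs j)
    rintro _ ⟨n, rfl⟩
    exact ⟨n, by rw [hQ]⟩
  · rw [← hQ]
    ext1 n
    rw [Polynomial.finsetSum_coeff]
    simp only [Polynomial.coeff_C_mul, Polynomial.coeff_map]
    by_cases h : n < d + 1
    · have h1 := hc ⟨n, h⟩
      simp only at h1
      rw [h1]
      refine Finset.sum_congr rfl fun j _ => ?_
      rw [hψ j n, dif_pos h, MvPolynomial.smul_eq_C_mul, mul_comm]
    · rw [Polynomial.coeff_eq_zero_of_natDegree_lt (by omega)]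
      symm
      refine Finset.sum_eq_zero fun j _ => ?_
      rw [hψ j n, dif_neg h]
      simp

end Pool.Agent.Helper72.SUB
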