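import Mathlib

/-!
Generalised Wronskians of polynomials in several variables.
-/

set_option autoImplicit false

namespace Pool.Agent.Helper72.SUB

open Finset MvPolynomial
open scoped MonomialOrder

variable {K : Type} [Field K] {m : ℕ}

/-- the iterated derivative along a list of variables -/
noncomputable def dl (l : List (Fin m)) (p : MvPolynomial (Fin m) K) : MvPolynomial (Fin m) K :=
  l.foldr (fun h q => pderiv h q) p

theorem dl_cons (h : Fin m) (l : List (Fin m)) (p : MvPolynomial (Fin m) K) :
    dl (h :: l) p = pderiv h (dl l p) := rfl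

theorem coeff_euler (h : Fin m) (p : MvPolynomial (Fin m) K) (u : Fin m →₀ ℕ) :
    coeff u (X h * pderiv h p) = (u h : K) * coeff u p := by
  classical
  induction p using MvPolynomial.induction_on' with
  | monomial a r =>
    rw [X_mul_pderiv_monomial, coeff_smul, coeff_monomial]
    split_ifs with h1
    · subst h1
      rw [nsmul_eq_mul]
    · simp
  | add p q hp hq => rw [map_add, mul_add, coeff_add, hp, hq, coeff_add, mul_add]

theorem degree_euler (h : Fin m) (p : MvPolynomial (Fin m) K) :
    MonomialOrder.lex.degree (X h * pderiv h p) ≼[MonomialOrder.lex]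
      MonomialOrder.lex.degree p := by
  rw [MonomialOrder.degree_le_iff]
  intro c hc
  refine MonomialOrder.le_degree ?_
  rw [mem_support_iff] at hc ⊢
  rw [coeff_euler] at hc
  exact right_ne_zero_of_mul hc

theorem degree_eq [CharZero K] {p q : MvPolynomial (Fin m) K} (hp : p ≠ 0) (hq : q ≠ 0)
    (h : ∀ i, pderiv i p * q = p * pderiv i q) :
    MonomialOrder.lex.degree p = MonomialOrder.lex.degree q := by
  ext i
  have h1 : (X i * pderiv i p) * q = p * (X i * pderiv i q) := by
    rw [mul_assoc, h i]
    ring
  have h2 := congrArg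
    (coeff (MonomialOrder.lex.degree p + MonomialOrder.lex.degree q)) h1
  rw [MonomialOrder.coeff_mul_of_add_of_degree_le (degree_euler i p) le_rfl,
    MonomialOrder.coeff_mul_of_add_of_degree_le le_rfl (degree_euler i q), coeff_euler,
    coeff_euler] at h2
  have h3 : coeff (MonomialOrder.lex.degree p) p ≠ 0 :=
    MonomialOrder.coeff_degree_ne_zero_iff.2 hp
  have h4 : coeff (MonomialOrder.lex.degree q) q ≠ 0 :=
    MonomialOrder.coeff_degree_ne_zero_iff.2 hq
  have h5 : ((MonomialOrder.lex.degree p) i : K) = ((MonomialOrder.lex.degree q) i : K) := by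
    have h6 : (((MonomialOrder.lex.degree p) i : K) - ((MonomialOrder.lex.degree q) i : K)) *
        (coeff (MonomialOrder.lex.degree p) p * coeff (MonomialOrder.lex.degree q) q) = 0 := by
      linear_combination h2
    rcases mul_eq_zero.1 h6 with h7 | h7
    · exact sub_eq_zero.1 h7
    · exact absurd h7 (mul_ne_zero h3 h4)
  exact_mod_cast h5

/-- polynomials with proportional gradients are proportional -/
theorem prop_of_grad [CharZero K] {p q : MvPolynomial (Fin m) K} (hq : q ≠ 0)
    (h : ∀ i, pderiv i p * q = p * pderiv i q) : ∃ t : K, p = C t * q := by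
  by_cases hp : p = 0
  · exact ⟨0, by simp [hp]⟩
  have hd := degree_eq hp hq h
  have h4 : coeff (MonomialOrder.lex.degree q) q ≠ 0 :=
    MonomialOrder.coeff_degree_ne_zero_iff.2 hq
  refine ⟨coeff (MonomialOrder.lex.degree q) p / coeff (MonomialOrder.lex.degree q) q, ?_⟩
  set t := coeff (MonomialOrder.lex.degree q) p / coeff (MonomialOrder.lex.degree q) q with ht
  by_contra hne
  have hr : p - C t * q ≠ 0 := fun h' => hne (sub_eq_zero.1 h')
  have h2 : ∀ i, pderiv i (p - C t * q) * q = (p - C t * q) * pderiv i q := by
    intro i
    rw [map_sub, pderiv_C_mul, sub_mul, sub_mul, h i]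
    ring
  have h3 := degree_eq hr hq h2
  have h5 : coeff (MonomialOrder.lex.degree (p - C t * q)) (p - C t * q) ≠ 0 :=
    MonomialOrder.coeff_degree_ne_zero_iff.2 hr
  apply h5
  rw [h3, coeff_sub, coeff_C_mul, ht, div_mul_cancel₀ _ h4, sub_self]

/-- **Generalised Wronskians.** -/
theorem gen_wronskian [CharZero K] : ∀ (k : ℕ) (f : Fin k → MvPolynomial (Fin m) K),
    LinearIndependent K f → ∃ l : Fin k → List (Fin m), (∀ i, (l i).length ≤ i) ∧
      (Matrix.of fun i j => dl (l i) (f j)).det ≠ 0
  | 0, f, _ => ⟨fun i => i.elim0, fun i => i.elim0, by simp⟩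
  | k + 1, f, hf => by
    obtain ⟨l, hl, hG⟩ := gen_wronskian k (fun j => f j.castSucc)
      (hf.comp _ (Fin.castSucc_injective k))
    by_contra hcon
    push Not at hcon
    -- the cofactors
    obtain ⟨c, hc⟩ : ∃ c : Fin (k + 1) → MvPolynomial (Fin m) K, ∀ j, c j =
        (-1) ^ ((Fin.last k : Fin (k + 1)) + j : ℕ) *
          (Matrix.of fun (i : Fin k) (j' : Fin k) => dl (l i) (f (j.succAbove j'))).det :=
      ⟨_, fun _ => rfl⟩
    have h0 : ∀ L : List (Fin m), L.length ≤ k → ∑ j, c j * dl L (f j) = 0 := by
      intro L hL
      have h1 := hcon (fun i => Fin.lastCases (motive := fun _ => List (Fin m)) L l i) (by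
        intro i
        refine Fin.lastCases ?_ (fun i => ?_) i
        · simpa using hL
        · simpa using hl i)
      rw [Matrix.det_succ_row _ (Fin.last k)] at h1
      rw [← h1]
      refine Finset.sum_congr rfl fun j _ => ?_
      rw [hc]
      simp only [Matrix.of_apply, Fin.lastCases_last]
      have h2 : ((Matrix.of fun i j => dl (Fin.lastCases (motive := fun _ => List (Fin m)) L l i)
          (f j)).submatrix (Fin.last k).succAbove j.succAbove) =
          Matrix.of fun (i : Fin k) (j' : Fin k) => dl (l i) (f (j.succAbove j')) := by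
        ext1 i j'
        simp
      rw [h2]
      ring
    have hlast : c (Fin.last k) ≠ 0 := by
      rw [hc]
      have h1 : (Matrix.of fun (i : Fin k) (j' : Fin k) =>
          dl (l i) (f ((Fin.last k).succAbove j'))) =
          Matrix.of fun i j => dl (l i) (f j.castSucc) := by
        ext1 i j'
        simp
      rw [h1]
      exact mul_ne_zero (pow_ne_zero _ (by simp)) hG
    have hd : ∀ (h : Fin m) (L : List (Fin m)), L.length < k →
        ∑ j, pderiv h (c j) * dl L (f j) = 0 := by
      intro h L hL
      have h1 := congrArg (pderiv h) (h0 L hL.le)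
      rw [map_sum, map_zero] at h1
      have h2 := h0 (h :: L) (by simpa using hL)
      have h3 : ∑ j, pderiv h (c j * dl L (f j)) =
          ∑ j, pderiv h (c j) * dl L (f j) + ∑ j, c j * dl (h :: L) (f j) := by
        rw [← Finset.sum_add_distrib]
        refine Finset.sum_congr rfl fun j _ => ?_
        rw [pderiv_mul, dl_cons]
      rw [h3, h2, add_zero] at h1
      exact h1
    have hprop : ∀ j, ∃ t : K, c j = C t * c (Fin.last k) := by
      intro j
      refine prop_of_grad hlast fun h => ?_
      have hz : ∀ j : Fin k, pderiv h (c j.castSucc) * c (Fin.last k) -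
          c j.castSucc * pderiv h (c (Fin.last k)) = 0 := by
        have h1 : (Matrix.of fun (i : Fin k) (j : Fin k) => dl (l i) (f j.castSucc)).mulVec
            (fun j : Fin k => pderiv h (c j.castSucc) * c (Fin.last k) -
              c j.castSucc * pderiv h (c (Fin.last k))) = 0 := by
          funext i
          have h2 := hd h (l i) ((hl i).trans_lt i.2)
          have h3 := h0 (l i) ((hl i).trans i.2.le)
          rw [Fin.sum_univ_castSucc] at h2 h3
          simp only [Matrix.mulVec, dotProduct, Matrix.of_apply, Pi.zero_apply]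
          have h4 : ∑ j : Fin k, dl (l i) (f j.castSucc) *
              (pderiv h (c j.castSucc) * c (Fin.last k) -
                c j.castSucc * pderiv h (c (Fin.last k))) =
              (∑ j : Fin k, pderiv h (c j.castSucc) * dl (l i) (f j.castSucc)) *
                c (Fin.last k) -
              (∑ j : Fin k, c j.castSucc * dl (l i) (f j.castSucc)) *
                pderiv h (c (Fin.last k)) := by
            rw [Finset.sum_mul, Finset.sum_mul, ← Finset.sum_sub_distrib]
            refine Finset.sum_congr rfl fun j _ => ?_
            ring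
          rw [h4]
          linear_combination c (Fin.last k) * h2 - pderiv h (c (Fin.last k)) * h3
        have h2 := Matrix.eq_zero_of_mulVec_eq_zero hG h1
        intro j
        exact congrFun h2 j
      refine Fin.lastCases ?_ (fun j => ?_) j
      · ring
      · exact sub_eq_zero.1 (hz j)
    choose t ht using hprop
    have h1 := h0 [] (Nat.zero_le _)
    have h2 : c (Fin.last k) * ∑ j, t j • f j = 0 := by
      rw [← h1, Finset.mul_sum]
      refine Finset.sum_congr rfl fun j _ => ?_
      rw [ht j, MvPolynomial.smul_eq_C_mul]
      show _ = _ * f j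
      ring
    have h3 : ∑ j, t j • f j = 0 := (mul_eq_zero.1 h2).resolve_left hlast
    have h4 := (Fintype.linearIndependent_iff.1 hf) t h3 (Fin.last k)
    apply hlast
    rw [ht (Fin.last k), h4]
    simp

end Pool.Agent.Helper72.SUB
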